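import Pool.Agent.N361.DC.Def

/-! # Project DC (helper361), part NUM (helper134): an inequality for binomial sums -/

set_option autoImplicit false

namespace Pool.Agent.N134.DC

open Finset Pool.Agent.N361.DC

lemma bet_nonneg (a c : ℕ) : 0 ≤ bet a c := by
  unfold bet
  positivity

lemma bet_succ_le (a d : ℕ) : bet a (d + 2) ≤ bet a (d + 1) := by
  unfold bet
  have e1 : d + 2 - 1 = d + 1 := rfl
  have e2 : d + 1 - 1 = d := rfl
  have e3 : a + (d + 2) = (a + (d + 1)) + 1 := by ring
  rw [e1, e2, e3, Nat.factorial_succ (a + (d + 1)), Nat.factorial_succ d]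
  rw [div_le_div_iff₀ (by positivity) (by positivity)]
  have h : (d + 1) ≤ a + (d + 1) + 1 := by omega
  have h2 : a.factorial * ((d + 1) * d.factorial) * (a + (d + 1)).factorial ≤
      a.factorial * d.factorial * ((a + (d + 1) + 1) * (a + (d + 1)).factorial) := by
    calc a.factorial * ((d + 1) * d.factorial) * (a + (d + 1)).factorial =
        (d + 1) * (a.factorial * d.factorial * (a + (d + 1)).factorial) := by ring
      _ ≤ (a + (d + 1) + 1) * (a.factorial * d.factorial * (a + (d + 1)).factorial) :=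
          Nat.mul_le_mul_right _ h
      _ = _ := by ring
  exact_mod_cast h2

lemma bet_one (a : ℕ) : bet a 1 = 1 / ((a : ℚ) + 1) := by
  unfold bet
  rw [Nat.sub_self, Nat.factorial_zero, mul_one, Nat.factorial_succ, Nat.cast_mul]
  have h : (a.factorial : ℚ) ≠ 0 := by exact_mod_cast Nat.factorial_ne_zero a
  push_cast
  field_simp

lemma pascal (u : ℕ) (f : ℕ → ℚ) :
    ∑ p ∈ range (u + 2), ((u + 1).choose p : ℚ) * f p =
      ∑ p ∈ range (u + 1), (u.choose p : ℚ) * (f p + f (p + 1)) := by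
  rw [Finset.sum_range_succ']
  have h1 : ∑ p ∈ range (u + 1), ((u + 1).choose (p + 1) : ℚ) * f (p + 1) =
      ∑ p ∈ range (u + 1), (u.choose p : ℚ) * f (p + 1) +
      ∑ p ∈ range (u + 1), (u.choose (p + 1) : ℚ) * f (p + 1) := by
    rw [← Finset.sum_add_distrib]
    refine Finset.sum_congr rfl fun p _ => ?_
    rw [Nat.choose_succ_succ]
    push_cast
    ring
  have h2 : ∑ p ∈ range (u + 1), (u.choose (p + 1) : ℚ) * f (p + 1) + (u.choose 0 : ℚ) * f 0 =
      ∑ p ∈ range (u + 1), (u.choose p : ℚ) * f p := by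
    rw [← Finset.sum_range_succ' (fun p => (u.choose p : ℚ) * f p), Finset.sum_range_succ,
      Nat.choose_succ_self, Nat.cast_zero, zero_mul, add_zero]
  rw [Nat.choose_zero_right] at h2 ⊢
  rw [h1, add_assoc, h2, ← Finset.sum_add_distrib]
  refine Finset.sum_congr rfl fun p _ => ?_
  ring

lemma base (u : ℕ) : ∑ p ∈ range (u + 1), (u.choose p : ℚ) * (1 / ((p : ℚ) + 1)) =
    (2 ^ (u + 1) - 1) / ((u : ℚ) + 1) := by
  have hu : ((u : ℚ) + 1) ≠ 0 := by positivity
  have h1 : ∀ p ∈ range (u + 1), (u.choose p : ℚ) * (1 / ((p : ℚ) + 1)) =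
      ((u + 1).choose (p + 1) : ℚ) * (1 / ((u : ℚ) + 1)) := by
    intro p _
    have h2 : ((u + 1) * u.choose p : ℕ) = (u + 1).choose (p + 1) * (p + 1) :=
      Nat.add_one_mul_choose_eq u p
    have h3 : ((u : ℚ) + 1) * (u.choose p : ℚ) = ((u + 1).choose (p + 1) : ℚ) * ((p : ℚ) + 1) := by
      exact_mod_cast h2
    have hp : ((p : ℚ) + 1) ≠ 0 := by positivity
    field_simp
    linarith
  rw [Finset.sum_congr rfl h1, ← Finset.sum_mul]
  have h4 : ∑ p ∈ range (u + 1), ((u + 1).choose (p + 1) : ℚ) = 2 ^ (u + 1) - 1 := by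
    have h5 := Nat.sum_range_choose (u + 1)
    rw [Finset.sum_range_succ'] at h5
    have h6 : (∑ p ∈ range (u + 1), ((u + 1).choose (p + 1) : ℚ)) + 1 = 2 ^ (u + 1) := by
      rw [Nat.choose_zero_right] at h5
      exact_mod_cast h5
    linarith
  rw [h4]
  ring

lemma cone (m : ℕ) : ∀ u : ℕ, ((m : ℚ) + 1) *
    ∑ p ∈ range (u + 1), (u.choose p : ℚ) * (1 / ((m : ℚ) + p + 1)) ≤
      (2 ^ (m + u + 1) - 1) / ((m : ℚ) + u + 1) := by
  induction m with
  | zero =>
    intro u
    have h := base u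
    simp only [Nat.cast_zero, zero_add, one_mul]
    exact h.le
  | succ m ih =>
    intro u
    refine le_trans ?_ ((ih (u + 1)).trans (le_of_eq ?_))
    · rw [pascal u (fun p => 1 / ((m : ℚ) + p + 1)), Finset.mul_sum, Finset.mul_sum]
      refine Finset.sum_le_sum fun p _ => ?_
      have hc : (0 : ℚ) ≤ (u.choose p : ℚ) := Nat.cast_nonneg _
      rw [mul_left_comm, mul_left_comm ((m : ℚ) + 1)]
      refine mul_le_mul_of_nonneg_left ?_ hc
      push_cast
      have h1 : (0 : ℚ) < (m : ℚ) + p + 1 := by positivity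
      have h2 : (0 : ℚ) < (m : ℚ) + (p + 1) + 1 := by positivity
      have e : (m : ℚ) + 1 + p + 1 = m + (p + 1) + 1 := by ring
      rw [e]
      have h3 : 1 / ((m : ℚ) + (p + 1) + 1) ≤ ((m : ℚ) + 1) * (1 / (m + p + 1)) := by
        rw [mul_one_div, div_le_div_iff₀ h2 h1]
        have hm : (0 : ℚ) ≤ m := Nat.cast_nonneg _
        have hp : (0 : ℚ) ≤ p := Nat.cast_nonneg _
        nlinarith [mul_nonneg hm hp, mul_nonneg hm hm]
      linarith
    · push_cast
      congr 1
      · congr 2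
        ring
      · ring

/-- part NUM -/
theorem num : S_NUM := by
  intro n u c hn hc
  obtain ⟨d, rfl⟩ : ∃ d, c = d + 1 := ⟨c - 1, by omega⟩
  clear hc
  induction d generalizing u with
  | zero =>
    obtain ⟨m, rfl⟩ : ∃ m, n = m + 1 := ⟨n - 1, by omega⟩
    have h := cone m u
    unfold psi
    have e1 : m + 1 + u + (0 + 1) - 1 = m + u + 1 := by omega
    rw [e1]
    have e2 : ∀ p, bet (m + 1 - 1 + p) (0 + 1) = 1 / ((m : ℚ) + p + 1) := by
      intro p
      rw [Nat.add_sub_cancel, zero_add, bet_one]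
      push_cast
      rfl
    simp only [e2]
    push_cast
    exact h
  | succ d ih =>
    have h := ih (u + 1)
    have e : n + (u + 1) + (d + 1) = n + u + (d + 1 + 1) := by ring
    rw [e] at h
    refine le_trans ?_ h
    refine mul_le_mul_of_nonneg_left ?_ (Nat.cast_nonneg _)
    rw [Finset.sum_range_succ _ (u + 1)]
    refine le_add_of_le_of_nonneg (Finset.sum_le_sum fun p _ => ?_)
      (mul_nonneg (Nat.cast_nonneg _) (bet_nonneg _ _))
    have h1 : (u.choose p : ℚ) ≤ ((u + 1).choose p : ℚ) := by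
      exact_mod_cast Nat.choose_le_choose p (Nat.le_succ u)
    exact mul_le_mul h1 (bet_succ_le _ _) (bet_nonneg _ _) (Nat.cast_nonneg _)

end Pool.Agent.N134.DC
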